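import Pool.Agent.helper10.FL.SpecV

/-!
# fl:OUT2: thin lattice data (helper16)
-/

set_option autoImplicit false

open Complex Metric Set Filter Topology MeasureTheory
open STA

noncomputable section

namespace FL

theorem OUT2_cx_le (u w : ℂ) : |cx u w| ≤ ‖u‖ * ‖w‖ := by
  have h : cx u w = ((starRingEnd ℂ) u * w).im := by
    unfold cx
    simp only [Complex.mul_im, Complex.conj_re, Complex.conj_im]
    ring
  rw [h]
  refine (Complex.abs_im_le_norm _).trans ?_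
  rw [norm_mul, RCLike.norm_conj]

theorem OUT2_cx_mul (r u w : ℂ) (k : ℝ) : cx ((k : ℂ) * (r * u)) (r * w) = k * ‖r‖ ^ 2 * cx u w := by
  have h : ‖r‖ ^ 2 = r.re * r.re + r.im * r.im := by
    rw [← Complex.normSq_eq_norm_sq, Complex.normSq_apply]
  rw [h]
  unfold cx
  simp only [Complex.mul_re, Complex.mul_im, Complex.ofReal_re, Complex.ofReal_im]
  ring

theorem OUT2_cx_div (u w : ℂ) (t : ℝ) (ht : t ≠ 0) : cx (u / (t : ℂ)) (w / (t : ℂ)) = cx u w / t ^ 2 := by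
  have h1 : ∀ v : ℂ, v / (t : ℂ) = ((t⁻¹ : ℝ) : ℂ) * v := by
    intro v
    rw [Complex.ofReal_inv, div_eq_mul_inv, mul_comm]
  rw [h1, h1]
  unfold cx
  simp only [Complex.mul_re, Complex.mul_im, Complex.ofReal_re, Complex.ofReal_im]
  field_simp
  ring

/-- facts of one stage. -/
structure OUT2_S (Y : Sys) (a b : ℕ) (ζ : ℂ) : Prop where
  a1 : 1 ≤ a
  b1 : 1 ≤ b
  ap : 0 < ‖T Y a 0‖
  bp : 0 < ‖T Y b 0‖
  al : (999 / 1000) * ‖T Y a 0‖ ≤ ‖T Y a ζ‖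
  au : ‖T Y a ζ‖ ≤ (1001 / 1000) * ‖T Y a 0‖
  bl : (999 / 1000) * ‖T Y b 0‖ ≤ ‖T Y b ζ‖
  bu : ‖T Y b ζ‖ ≤ (1001 / 1000) * ‖T Y b 0‖
  ga : ∀ z ∈ ball (0 : ℂ) (1 / 48), Y.g a z
  gb : ∀ z ∈ ball (0 : ℂ) (1 / 48), Y.g b z
  la : ∀ z ∈ ball (0 : ℂ) (1 / 50), ‖T Y a z - T Y a ζ‖ ≤ (1 / 1000) * ‖T Y a 0‖ * ‖z - ζ‖
  lb : ∀ z ∈ ball (0 : ℂ) (1 / 50), ‖T Y b z - T Y b ζ‖ ≤ (1 / 1000) * ‖T Y b 0‖ * ‖z - ζ‖
  cr : (1 / 6) * (‖T Y a ζ‖ * ‖T Y b ζ‖) ≤ |cx (T Y a ζ) (T Y b ζ)|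
  st : ∀ l : ℕ, 1 ≤ l → (l : ℝ) * ‖T Y a 0‖ ≤ 2 / 10 ^ 7 → RT Y (1 / 24 - 2 * (l * ‖T Y a 0‖)) (l * a) ∧
    ∀ z ∈ ball (0 : ℂ) (1 / 100), ‖T Y (l * a) z - l * T Y a z‖ ≤ (l * ‖T Y a 0‖) ^ 2

theorem OUT2_stage (hRRB : RRB_stmt) (hINJ : INJ_stmt) (hFIN : FIN_stmt) (hSTN : STN_stmt) (Y : Sys) (e s : ℝ) (a m k b : ℕ) (ζ : ℂ) (hok : SOk Y)
    (hnp : NPP Y (1 / 10 ^ 4) e s 0 a m) (hjx : JXP Y {0}) (hra : RT Y (1 / 24) a) (hsw : SLW Y a k b) (hζ : ‖ζ‖ ≤ 1 / 10 ^ 6)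
    (hang : (1 / 5) * (‖T Y a 0‖ * ‖T Y b 0‖) ≤ |cx (T Y a 0) (T Y b 0)|) : OUT2_S Y a b ζ := by
  have hθ0 : (0 : ℝ) ≤ (1 - (1 / 2) ^ k) / 2 := by
    have : (1 / 2 : ℝ) ^ k ≤ 1 := pow_le_one₀ (by norm_num) (by norm_num)
    linarith
  have hθ1 : (1 - (1 / 2 : ℝ) ^ k) / 2 ≤ 1 := by
    have : (0 : ℝ) < (1 / 2) ^ k := by positivity
    linarith
  have hrs := hRRB.2.1 0 _ hθ0 hθ1
  have hrb : RT Y (rs k) b := hsw.rt
  have hrs' : 1 / 48 < rs k ∧ rs k ≤ 1 / 24 := hrs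
  obtain ⟨-, la, ra⟩ := hINJ Y (1 / 10 ^ 4) e s 0 a m hok hnp (1 / 24) a (by norm_num) le_rfl hra
  obtain ⟨-, lb, rb⟩ := hINJ Y (1 / 10 ^ 4) e s 0 a m hok hnp (rs k) b hrs'.1.le hrs'.2 hrb
  have hfin := (hFIN Y (1 / 10 ^ 4) e s 0 a m hok hnp hjx).2
  have hra' : RT Y (1 / 48) a := hRRB.2.2.2.1 Y (1 / 24) (1 / 48) a (by norm_num) hra
  have hrb' : RT Y (1 / 48) b := hRRB.2.2.2.1 Y (rs k) (1 / 48) b hrs'.1.le hrb
  have ap : 0 < ‖T Y a 0‖ := norm_pos_iff.2 (hfin a hra')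
  have bp : 0 < ‖T Y b 0‖ := norm_pos_iff.2 (hfin b hrb')
  have hz24 : ζ ∈ ball (0 : ℂ) (1 / 24) := by
    rw [mem_ball_zero_iff]; linarith
  have hzrs : ζ ∈ ball (0 : ℂ) (rs k) := by
    rw [mem_ball_zero_iff]; linarith [hrs'.1]
  have hz50 : ζ ∈ ball (0 : ℂ) (1 / 50) := by
    rw [mem_ball_zero_iff]; linarith
  have h050 : (0 : ℂ) ∈ ball (0 : ℂ) (1 / 50) := mem_ball_self (by norm_num)
  have a1 := ra ζ hz24
  have b1 := rb ζ hzrs
  have la0 := la ζ hz50 0 h050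
  have lb0 := lb ζ hz50 0 h050
  rw [sub_zero] at la0 lb0
  refine ⟨hra.m1, hrb.m1, ap, bp, a1.1, a1.2, b1.1, b1.2, hra'.gd, hrb'.gd, fun z hz => la z hz ζ hz50, fun z hz => lb z hz ζ hz50, ?_,
    (hSTN Y (1 / 10 ^ 4) e s 0 a m hok hnp).1⟩
  have e1 : cx (T Y a ζ) (T Y b ζ) = cx (T Y a 0) (T Y b 0) + (cx (T Y a ζ - T Y a 0) (T Y b ζ) + cx (T Y a 0) (T Y b ζ - T Y b 0)) := by
    unfold cx
    simp only [Complex.sub_re, Complex.sub_im]
    ring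
  have h1 : |cx (T Y a ζ - T Y a 0) (T Y b ζ)| ≤ (1 / 10 ^ 9 * ‖T Y a 0‖) * (1001 / 1000 * ‖T Y b 0‖) := by
    refine (OUT2_cx_le _ _).trans (mul_le_mul ?_ b1.2 (norm_nonneg _) (by positivity))
    refine la0.trans ?_
    nlinarith
  have h2 : |cx (T Y a 0) (T Y b ζ - T Y b 0)| ≤ ‖T Y a 0‖ * (1 / 10 ^ 9 * ‖T Y b 0‖) := by
    refine (OUT2_cx_le _ _).trans (mul_le_mul_of_nonneg_left ?_ ap.le)
    refine lb0.trans ?_
    nlinarith
  have hαβ : 0 < ‖T Y a 0‖ * ‖T Y b 0‖ := mul_pos ap bp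
  have h3 : ‖T Y a ζ‖ * ‖T Y b ζ‖ ≤ (1001 / 1000) ^ 2 * (‖T Y a 0‖ * ‖T Y b 0‖) := by
    calc ‖T Y a ζ‖ * ‖T Y b ζ‖ ≤ (1001 / 1000 * ‖T Y a 0‖) * (1001 / 1000 * ‖T Y b 0‖) := mul_le_mul a1.2 b1.2 (norm_nonneg _) (by positivity)
      _ = (1001 / 1000) ^ 2 * (‖T Y a 0‖ * ‖T Y b 0‖) := by ring
  have h4 : |cx (T Y a 0) (T Y b 0)| ≤ |cx (T Y a ζ) (T Y b ζ)| + (|cx (T Y a ζ - T Y a 0) (T Y b ζ)| + |cx (T Y a 0) (T Y b ζ - T Y b 0)|) := by
    have e2 : cx (T Y a 0) (T Y b 0) = cx (T Y a ζ) (T Y b ζ) - (cx (T Y a ζ - T Y a 0) (T Y b ζ) + cx (T Y a 0) (T Y b ζ - T Y b 0)) := by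
      rw [e1]; ring
    rw [e2]
    refine (abs_sub _ _).trans ?_
    exact add_le_add le_rfl (abs_add_le _ _)
  nlinarith

theorem OUT2_z (y r ζ z : ℂ) (ρ : ℝ) (hr : r ≠ 0) (hz : z ∈ ball (y + r * ζ) (ρ * ‖r‖)) : ∃ w : ℂ, z = y + r * w ∧ w ∈ ball ζ ρ := by
  have hrp : 0 < ‖r‖ := norm_pos_iff.2 hr
  refine ⟨(z - y) / r, ?_, ?_⟩
  · field_simp
    ring
  · rw [mem_ball, dist_eq_norm] at hz ⊢
    have e1 : (z - y) / r - ζ = (z - (y + r * ζ)) / r := by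
      field_simp
      ring
    rw [e1, norm_div, div_lt_iff₀ hrp]
    exact hz

theorem OUT2 (hRRB : RRB_stmt) (hINJ : INJ_stmt) (hFIN : FIN_stmt) (hSTN : STN_stmt) (hRAT : RAT_stmt) (hIDX : IDX_stmt) (hANG : ANG_stmt)
    (hCPL : CPL_stmt) (hPVF : STA.PVF_stmt) : OUT2_stmt := by
  intro Y₀ U y r e s a m ζ k b hT
  have hsq := hT.th.s2.sq
  have hr0 := hsq.r0
  have hS : ∀ᶠ j in (U : Filter ℕ), OUT2_S (PVs (y j) (r j) Y₀) (a j) (b j) (ζ j) := by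
    filter_upwards [hsq.np, hT.th.s2.jx, hT.sw, hANG Y₀ U y r e s a m ζ k b hT] with j h1 h2 h3 h4
    have hok : SOk (PVs (y j) (r j) Y₀) := (hPVF Y₀ (y j) (r j) (hr0 j)).2.2.1 hsq.ok
    exact OUT2_stage hRRB hINJ hFIN hSTN _ e s (a j) (m j) (k j) (b j) (ζ j) hok h1 h2 (hRRB.2.2.2.2 _ _ _ _ _ _ _ h1).1 h3 (hsq.ze j) h4
  obtain ⟨A, hA⟩ : ∃ A : ℕ → ℂ, A = fun j => T (PVs (y j) (r j) Y₀) (a j) (ζ j) := ⟨_, rfl⟩
  obtain ⟨B, hB⟩ : ∃ B : ℕ → ℂ, B = fun j => T (PVs (y j) (r j) Y₀) (b j) (ζ j) := ⟨_, rfl⟩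
  have hAj : ∀ j, T (PVs (y j) (r j) Y₀) (a j) (ζ j) = A j := fun j => by rw [hA]
  have hBj : ∀ j, T (PVs (y j) (r j) Y₀) (b j) (ζ j) = B j := fun j => by rw [hB]
  have hA0 : ∀ᶠ j in (U : Filter ℕ), 0 < ‖A j‖ := by
    filter_upwards [hS] with j h
    have h1 := h.al
    have h2 := h.ap
    rw [hAj] at h1
    linarith
  have hB0 : ∀ᶠ j in (U : Filter ℕ), 0 < ‖B j‖ := by
    filter_upwards [hS] with j h
    have h1 := h.bl
    have h2 := h.bp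
    rw [hBj] at h1
    linarith
  -- `B → 0`
  have hBlim : Tendsto (fun j => ‖B j‖) U (𝓝 0) := by
    have hlim : Tendsto (fun j => (1001 / 1000 : ℝ) * (2 ^ (k j) * ‖T (PVs (y j) (r j) Y₀) (b j) 0‖)) U (𝓝 0) := by
      have := hT.sm.const_mul (1001 / 1000 : ℝ)
      simpa using this
    refine squeeze_zero' (Eventually.of_forall fun j => norm_nonneg _) ?_ hlim
    filter_upwards [hS] with j h
    have h1 := h.bu
    rw [hBj] at h1
    have h2 : (1 : ℝ) ≤ 2 ^ (k j) := one_le_pow₀ (by norm_num)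
    have h3 := h.bp
    nlinarith
  -- the ratio
  have hratio : Tendsto (fun j => ‖A j‖ / ‖B j‖) U (𝓝 0) := by
    have hlim : Tendsto (fun j => (1001 / 999 : ℝ) * (‖T (PVs (y j) (r j) Y₀) (a j) 0‖ / ‖T (PVs (y j) (r j) Y₀) (b j) 0‖)) U (𝓝 0) := by
      have := (hRAT Y₀ U y r e s a m ζ k b hT).const_mul (1001 / 999 : ℝ)
      simpa using this
    refine squeeze_zero' (Eventually.of_forall fun j => by positivity) ?_ hlim
    filter_upwards [hS, hB0] with j h hb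
    have h1 := h.au
    have h2 := h.bl
    rw [hAj] at h1
    rw [hBj] at h2
    have h3 := h.bp
    have h4 := h.ap
    rw [div_le_iff₀ hb]
    have h5 : 1001 / 999 * (‖T (PVs (y j) (r j) Y₀) (a j) 0‖ / ‖T (PVs (y j) (r j) Y₀) (b j) 0‖) * ‖B j‖ =
        (1001 / 1000) * ‖T (PVs (y j) (r j) Y₀) (a j) 0‖ * (‖B j‖ / (999 / 1000 * ‖T (PVs (y j) (r j) Y₀) (b j) 0‖)) := by
      field_simp
    have h6 : 1 ≤ ‖B j‖ / (999 / 1000 * ‖T (PVs (y j) (r j) Y₀) (b j) 0‖) := by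
      rw [le_div_iff₀ (by positivity)]
      linarith
    rw [h5]
    calc ‖A j‖ ≤ 1001 / 1000 * ‖T (PVs (y j) (r j) Y₀) (a j) 0‖ := h1
      _ = 1001 / 1000 * ‖T (PVs (y j) (r j) Y₀) (a j) 0‖ * 1 := by ring
      _ ≤ _ := mul_le_mul_of_nonneg_left h6 (by positivity)
  have hq : Tendsto (fun j => ‖B j‖ / ‖A j‖) U atTop := by
    have h1 : Tendsto (fun j => ‖A j‖ / ‖B j‖) U (𝓝[>] 0) := by
      rw [tendsto_nhdsWithin_iff]
      refine ⟨hratio, ?_⟩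
      filter_upwards [hA0, hB0] with j ha hb
      exact div_pos ha hb
    have h2 := tendsto_inv_nhdsGT_zero.comp h1
    refine h2.congr fun j => ?_
    simp only [Function.comp_apply, inv_div]
  obtain ⟨K, hK⟩ : ∃ K : ℕ → ℕ, K = fun j => max 1 ⌊‖B j‖ / ‖A j‖⌋₊ := ⟨_, rfl⟩
  have hK1 : ∀ j, 1 ≤ K j := fun j => by
    rw [hK]
    exact le_max_left _ _
  have hKtop : Tendsto K U atTop := by
    have h1 : Tendsto (fun j => ⌊‖B j‖ / ‖A j‖⌋₊) U atTop := tendsto_nat_floor_atTop.comp hq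
    refine tendsto_atTop_mono (fun j => ?_) h1
    rw [hK]
    exact le_max_right _ _
  have hKA : ∀ᶠ j in (U : Filter ℕ), (K j : ℝ) * ‖A j‖ ≤ ‖B j‖ ∧ ‖B j‖ ≤ (101 / 100) * ((K j : ℝ) * ‖A j‖) := by
    filter_upwards [hA0, hB0, hq.eventually_ge_atTop 200] with j ha hb hqj
    have hfl : 1 ≤ ⌊‖B j‖ / ‖A j‖⌋₊ := by
      rw [Nat.one_le_floor_iff]
      linarith
    have hKj : K j = ⌊‖B j‖ / ‖A j‖⌋₊ := by
      rw [hK]
      exact max_eq_right hfl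
    have h1 : (K j : ℝ) ≤ ‖B j‖ / ‖A j‖ := by
      rw [hKj]
      exact Nat.floor_le (by positivity)
    have h2 : ‖B j‖ / ‖A j‖ < (K j : ℝ) + 1 := by
      rw [hKj]
      exact Nat.lt_floor_add_one _
    constructor
    · rwa [le_div_iff₀ ha] at h1
    · have h3 : ‖B j‖ < ((K j : ℝ) + 1) * ‖A j‖ := by rwa [div_lt_iff₀ ha] at h2
      have h4 : (199 : ℝ) ≤ K j := by linarith
      nlinarith
  obtain ⟨t, ht⟩ : ∃ t : ℕ → ℝ, t = fun j => if B j = 0 then 1 else ‖B j‖ * ‖r j‖ := ⟨_, rfl⟩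
  have htp : ∀ j, 0 < t j := by
    intro j
    rw [ht]
    dsimp only
    split_ifs with h
    · exact one_pos
    · exact mul_pos (norm_pos_iff.2 h) (norm_pos_iff.2 (hr0 j))
  have hte : ∀ j, 0 < ‖B j‖ → t j = ‖B j‖ * ‖r j‖ := by
    intro j hj
    rw [ht]
    dsimp only
    rw [if_neg (norm_pos_iff.1 hj)]
  -- the vectors
  have hcl : ∀ f : ℕ → ℂ, (∀ᶠ j in (U : Filter ℕ), ‖f j‖ ≤ 1) → ∃ u : ℂ, Tendsto f U (𝓝 u) := by
    intro f hf
    have hc : IsCompact (closedBall (0 : ℂ) 1) := isCompact_closedBall _ _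
    have hmem : closedBall (0 : ℂ) 1 ∈ U.map f := by
      rw [Ultrafilter.mem_map]
      show {j | f j ∈ closedBall (0 : ℂ) 1} ∈ U
      filter_upwards [hf] with j hj
      show f j ∈ closedBall (0 : ℂ) 1
      rwa [mem_closedBall_zero_iff]
    obtain ⟨u, -, hu⟩ := hc.ultrafilter_le_nhds' _ hmem
    exact ⟨u, hu⟩
  obtain ⟨u, hu⟩ := hcl (fun j => ((K j : ℝ) : ℂ) * (r j * A j) / (t j : ℂ)) (by
    filter_upwards [hB0, hKA] with j hb hk
    have hrp : 0 < ‖r j‖ := norm_pos_iff.2 (hr0 j)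
    rw [norm_div, norm_mul, norm_mul, Complex.norm_real, Complex.norm_real, Real.norm_of_nonneg (by positivity), Real.norm_of_nonneg (htp j).le, hte j hb,
      div_le_one (by positivity)]
    nlinarith [hk.1])
  obtain ⟨w, hw⟩ := hcl (fun j => r j * B j / (t j : ℂ)) (by
    filter_upwards [hB0] with j hb
    have hrp : 0 < ‖r j‖ := norm_pos_iff.2 (hr0 j)
    rw [norm_div, norm_mul, Complex.norm_real, Real.norm_of_nonneg (htp j).le, hte j hb, div_le_one (by positivity)]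
    linarith [mul_comm ‖r j‖ ‖B j‖])
  have hdet : u.re * w.im - u.im * w.re ≠ 0 := by
    have hcont : Tendsto (fun j => |cx (((K j : ℝ) : ℂ) * (r j * A j) / (t j : ℂ)) (r j * B j / (t j : ℂ))|) U (𝓝 |cx u w|) := by
      have h1 := (Complex.continuous_re.tendsto u).comp hu
      have h2 := (Complex.continuous_im.tendsto u).comp hu
      have h3 := (Complex.continuous_re.tendsto w).comp hw
      have h4 := (Complex.continuous_im.tendsto w).comp hw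
      exact ((h1.mul h4).sub (h2.mul h3)).abs
    have hge : ∀ᶠ j in (U : Filter ℕ), (1 / 7 : ℝ) ≤ |cx (((K j : ℝ) : ℂ) * (r j * A j) / (t j : ℂ)) (r j * B j / (t j : ℂ))| := by
      filter_upwards [hS, hA0, hB0, hKA] with j h ha hb hk
      have hrp : 0 < ‖r j‖ := norm_pos_iff.2 (hr0 j)
      rw [OUT2_cx_div _ _ _ (htp j).ne', OUT2_cx_mul, hte j hb, abs_div, abs_mul, abs_mul, abs_of_nonneg (Nat.cast_nonneg (K j)), abs_of_nonneg (by positivity : 0 ≤ ‖r j‖ ^ 2),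
        abs_of_nonneg (by positivity : 0 ≤ (‖B j‖ * ‖r j‖) ^ 2), le_div_iff₀ (by positivity)]
      have h1 := h.cr
      rw [hAj, hBj] at h1
      have h2 : (1 / 7 : ℝ) * (‖B j‖ * ‖r j‖) ^ 2 = ‖r j‖ ^ 2 * (1 / 7 * (‖B j‖ * ‖B j‖)) := by ring
      have h3 : (K j : ℝ) * ‖r j‖ ^ 2 * |cx (A j) (B j)| = ‖r j‖ ^ 2 * ((K j : ℝ) * |cx (A j) (B j)|) := by ring
      rw [h2, h3]
      refine mul_le_mul_of_nonneg_left ?_ (by positivity)
      have h4 : (K j : ℝ) * (1 / 6 * (‖A j‖ * ‖B j‖)) ≤ (K j : ℝ) * |cx (A j) (B j)| := mul_le_mul_of_nonneg_left h1 (by positivity)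
      have h5 : ‖B j‖ * ‖B j‖ ≤ (101 / 100) * ((K j : ℝ) * ‖A j‖) * ‖B j‖ := mul_le_mul_of_nonneg_right hk.2 hb.le
      nlinarith
    have h7 : (1 / 7 : ℝ) ≤ |cx u w| := ge_of_tendsto hcont hge
    intro h0
    have h8 : cx u w = 0 := h0
    rw [h8, abs_zero] at h7
    linarith
  -- smallness
  have hKT : ∀ᶠ j in (U : Filter ℕ), (K j : ℝ) * ‖T (PVs (y j) (r j) Y₀) (a j) 0‖ ≤ (1002 / 1000) * ‖B j‖ ∧ (K j : ℝ) * ‖T (PVs (y j) (r j) Y₀) (a j) 0‖ ≤ 2 * ‖T (PVs (y j) (r j) Y₀) (b j) 0‖ := by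
    filter_upwards [hS, hKA] with j h hk
    have h1 := h.al
    have h2 := h.bu
    rw [hAj] at h1
    rw [hBj] at h2
    have h3 : (0 : ℝ) ≤ K j := Nat.cast_nonneg _
    have h4 : (K j : ℝ) * ((999 / 1000) * ‖T (PVs (y j) (r j) Y₀) (a j) 0‖) ≤ (K j : ℝ) * ‖A j‖ := mul_le_mul_of_nonneg_left h1 h3
    have h5 := h.bp
    constructor
    · nlinarith [hk.1]
    · nlinarith [hk.1]
  have hsmall : ∀ ε : ℝ, 0 < ε → ∀ᶠ j in (U : Filter ℕ), ‖B j‖ < ε := fun ε hε => hBlim.eventually (gt_mem_nhds hε)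
  have hcu : ∀ ε : ℝ, 0 < ε → ∀ᶠ j in (U : Filter ℕ), ‖((K j : ℝ) : ℂ) * (r j * A j) / (t j : ℂ) - u‖ < ε := fun ε hε =>
    (tendsto_iff_norm_sub_tendsto_zero.1 hu).eventually (gt_mem_nhds hε)
  have hcw : ∀ ε : ℝ, 0 < ε → ∀ᶠ j in (U : Filter ℕ), ‖r j * B j / (t j : ℂ) - w‖ < ε := fun ε hε =>
    (tendsto_iff_norm_sub_tendsto_zero.1 hw).eventually (gt_mem_nhds hε)
  -- points of the balls
  have hpt : ∀ R : ℝ, 0 < R → ∀ᶠ j in (U : Filter ℕ), ∀ z ∈ ball (y j + r j * ζ j) (R * t j), ∃ v : ℂ, z = y j + r j * v ∧ ‖v - ζ j‖ < R * ‖B j‖ ∧ ‖v‖ < 1 / 100 := by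
    intro R hR
    filter_upwards [hB0, hsmall (1 / (1000 * R)) (by positivity)] with j hb hs z hz
    rw [hte j hb, ← mul_assoc] at hz
    obtain ⟨v, hv1, hv2⟩ := OUT2_z (y j) (r j) (ζ j) z (R * ‖B j‖) (hr0 j) hz
    rw [mem_ball, dist_eq_norm] at hv2
    refine ⟨v, hv1, hv2, ?_⟩
    have h1 : ‖v‖ ≤ ‖v - ζ j‖ + ‖ζ j‖ := by simpa using norm_add_le (v - ζ j) (ζ j)
    have h2 := hsq.ze j
    have h3 : R * ‖B j‖ < 1 / 1000 := by
      rw [lt_div_iff₀ (by positivity)] at hs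
      linarith
    linarith
  have hNa : ∀ᶠ j in (U : Filter ℕ), max 1 (a j) = a j := by
    filter_upwards [hS] with j h
    exact max_eq_right h.a1
  have hNb : ∀ᶠ j in (U : Filter ℕ), max 1 (b j) = b j := by
    filter_upwards [hS] with j h
    exact max_eq_right h.b1
  have hTr : ∀ (j n : ℕ) (v : ℂ), Y₀.f^[n] (y j + r j * v) - (y j + r j * v) = r j * T (PVs (y j) (r j) Y₀) n v := by
    intro j n v
    rw [(hPVF Y₀ (y j) (r j) (hr0 j)).2.1 n v]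
    have := hr0 j
    unfold T
    field_simp
  refine ⟨t, fun j => max 1 (a j), K, fun j => max 1 (b j), u, w, ⟨hsq.le, htp, fun j => le_max_left _ _, hK1, fun j => le_max_left _ _, hdet, hKtop, ?_, ?_, ?_, ?_, ?_⟩, ?_⟩
  · -- tN
    intro R η hR hη
    filter_upwards [hS, hNa, hB0, hKA, hpt R hR, hsmall (η / (2 * R)) (by positivity), hcu (η / 2) (by positivity), hKT] with j h hn hb hk hp hs hc hkt z hz
    obtain ⟨v, rfl, hv1, hv2⟩ := hp z hz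
    rw [hn]
    have hrp : 0 < ‖r j‖ := norm_pos_iff.2 (hr0 j)
    have hKp : (0 : ℝ) < K j := by exact_mod_cast hK1 j
    refine ⟨h.ga v (mem_ball_zero_iff.2 (by linarith)), ?_⟩
    rw [hTr]
    have hl := h.la v (mem_ball_zero_iff.2 (by linarith))
    rw [hAj] at hl
    have ht0 : (t j : ℂ) ≠ 0 := by exact_mod_cast (htp j).ne'
    have hK0 : (K j : ℂ) ≠ 0 := by exact_mod_cast hKp.ne'
    have e1 : r j * T (PVs (y j) (r j) Y₀) (a j) v - (t j : ℂ) * u / (K j : ℂ) = r j * (T (PVs (y j) (r j) Y₀) (a j) v - A j) +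
        (t j : ℂ) / (K j : ℂ) * (((K j : ℝ) : ℂ) * (r j * A j) / (t j : ℂ) - u) := by
      push_cast
      field_simp
      ring
    rw [e1]
    refine (norm_add_le _ _).trans ?_
    rw [norm_mul, norm_mul, norm_div, Complex.norm_real, Real.norm_of_nonneg (htp j).le]
    have e2 : ‖(K j : ℂ)‖ = K j := by simp
    rw [e2]
    have h1 : t j / K j * ‖((K j : ℝ) : ℂ) * (r j * A j) / (t j : ℂ) - u‖ ≤ t j / K j * (η / 2) := mul_le_mul_of_nonneg_left hc.le (by have := htp j; positivity)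
    have h2 : ‖r j‖ * ‖T (PVs (y j) (r j) Y₀) (a j) v - A j‖ ≤ t j / K j * (η / 2) := by
      rw [hte j hb]
      have h3 : ‖T (PVs (y j) (r j) Y₀) (a j) v - A j‖ ≤ 1 / 1000 * ‖T (PVs (y j) (r j) Y₀) (a j) 0‖ * (R * ‖B j‖) :=
        hl.trans (mul_le_mul_of_nonneg_left hv1.le (by positivity))
      have h4 : ‖B j‖ * ‖r j‖ / K j * (η / 2) = ‖r j‖ * (‖B j‖ / K j * (η / 2)) := by ring
      rw [h4]
      refine mul_le_mul_of_nonneg_left (h3.trans ?_) hrp.le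
      have h5 : ‖T (PVs (y j) (r j) Y₀) (a j) 0‖ ≤ 1002 / 1000 * (‖B j‖ / K j) := by
        have : ‖T (PVs (y j) (r j) Y₀) (a j) 0‖ = (K j : ℝ) * ‖T (PVs (y j) (r j) Y₀) (a j) 0‖ / K j := by field_simp
        rw [this, ← mul_div_assoc]
        exact div_le_div_of_nonneg_right hkt.1 hKp.le
      have h6 : R * ‖B j‖ ≤ η / 2 := by
        rw [lt_div_iff₀ (by positivity)] at hs
        linarith
      calc 1 / 1000 * ‖T (PVs (y j) (r j) Y₀) (a j) 0‖ * (R * ‖B j‖) ≤ 1 / 1000 * (1002 / 1000 * (‖B j‖ / K j)) * (η / 2) := by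
            refine mul_le_mul (mul_le_mul_of_nonneg_left h5 (by norm_num)) h6 (by positivity) (by positivity)
        _ ≤ ‖B j‖ / K j * (η / 2) := by
            have : 0 ≤ ‖B j‖ / K j * (η / 2) := by positivity
            nlinarith
    have h7 : η * t j / K j = t j / K j * (η / 2) + t j / K j * (η / 2) := by ring
    rw [h7]
    exact add_le_add h2 h1
  · -- ta
    intro R η hR hη
    filter_upwards [hS, hNa, hB0, hKA, hpt R hR, hsmall (η / (8 * (R + 1))) (by positivity), hcu (η / 2) (by positivity), hKT, hsmall (1 / 10 ^ 7) (by norm_num)] with j h hn hb hk hp hs hc hkt hs7 z hz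
    obtain ⟨v, rfl, hv1, hv2⟩ := hp z hz
    rw [hn]
    have hrp : 0 < ‖r j‖ := norm_pos_iff.2 (hr0 j)
    have hKp : (0 : ℝ) < K j := by exact_mod_cast hK1 j
    obtain ⟨hRT, hst⟩ := h.st (K j) (hK1 j) (by linarith [hkt.1])
    refine ⟨hRT.gd v (mem_ball_zero_iff.2 (by linarith [hkt.1])), ?_⟩
    rw [hTr]
    have hl := h.la v (mem_ball_zero_iff.2 (by linarith))
    rw [hAj] at hl
    have hst' := hst v (mem_ball_zero_iff.2 hv2)
    have ht0 : (t j : ℂ) ≠ 0 := by exact_mod_cast (htp j).ne'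
    have e1 : r j * T (PVs (y j) (r j) Y₀) (K j * a j) v - (t j : ℂ) * u = r j * (T (PVs (y j) (r j) Y₀) (K j * a j) v - (K j : ℂ) * T (PVs (y j) (r j) Y₀) (a j) v) +
        (r j * ((K j : ℂ) * (T (PVs (y j) (r j) Y₀) (a j) v - A j)) + (t j : ℂ) * (((K j : ℝ) : ℂ) * (r j * A j) / (t j : ℂ) - u)) := by
      push_cast
      field_simp
      ring
    rw [e1]
    have e2 : ‖(K j : ℂ)‖ = K j := by simp
    refine (norm_add_le _ _).trans (le_trans (add_le_add le_rfl (norm_add_le _ _)) ?_)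
    rw [norm_mul, norm_mul, norm_mul, norm_mul, Complex.norm_real, Real.norm_of_nonneg (htp j).le, e2]
    have hR1 : (R + 1) * ‖B j‖ ≤ η / 8 := by
      rw [lt_div_iff₀ (by positivity)] at hs
      linarith
    have hBη : ‖B j‖ ≤ η / 8 := by nlinarith
    have hRB : R * ‖B j‖ ≤ η / 8 := by nlinarith
    have h1 : t j * ‖((K j : ℝ) : ℂ) * (r j * A j) / (t j : ℂ) - u‖ ≤ t j * (η / 2) := mul_le_mul_of_nonneg_left hc.le (htp j).le
    have h2 : ‖r j‖ * ‖T (PVs (y j) (r j) Y₀) (K j * a j) v - (K j : ℂ) * T (PVs (y j) (r j) Y₀) (a j) v‖ ≤ t j * (η / 4) := by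
      rw [hte j hb]
      have h3 : ((K j : ℝ) * ‖T (PVs (y j) (r j) Y₀) (a j) 0‖) ^ 2 ≤ (1002 / 1000 * ‖B j‖) ^ 2 := pow_le_pow_left₀ (by positivity) hkt.1 2
      have h4 : (1002 / 1000 * ‖B j‖) ^ 2 ≤ ‖B j‖ * (η / 4) := by nlinarith
      have h5 : ‖B j‖ * ‖r j‖ * (η / 4) = ‖r j‖ * (‖B j‖ * (η / 4)) := by ring
      rw [h5]
      exact mul_le_mul_of_nonneg_left (hst'.trans (h3.trans h4)) hrp.le
    have h6 : ‖r j‖ * ((K j : ℝ) * ‖T (PVs (y j) (r j) Y₀) (a j) v - A j‖) ≤ t j * (η / 4) := by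
      rw [hte j hb]
      have h3 : ‖T (PVs (y j) (r j) Y₀) (a j) v - A j‖ ≤ 1 / 1000 * ‖T (PVs (y j) (r j) Y₀) (a j) 0‖ * (R * ‖B j‖) :=
        hl.trans (mul_le_mul_of_nonneg_left hv1.le (by positivity))
      have h5 : ‖B j‖ * ‖r j‖ * (η / 4) = ‖r j‖ * (‖B j‖ * (η / 4)) := by ring
      rw [h5]
      refine mul_le_mul_of_nonneg_left ?_ hrp.le
      calc (K j : ℝ) * ‖T (PVs (y j) (r j) Y₀) (a j) v - A j‖ ≤ (K j : ℝ) * (1 / 1000 * ‖T (PVs (y j) (r j) Y₀) (a j) 0‖ * (R * ‖B j‖)) := mul_le_mul_of_nonneg_left h3 hKp.le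
        _ = 1 / 1000 * ((K j : ℝ) * ‖T (PVs (y j) (r j) Y₀) (a j) 0‖) * (R * ‖B j‖) := by ring
        _ ≤ 1 / 1000 * (1002 / 1000 * ‖B j‖) * (η / 8) := by
            refine mul_le_mul (mul_le_mul_of_nonneg_left hkt.1 (by norm_num)) hRB (by positivity) (by positivity)
        _ ≤ ‖B j‖ * (η / 4) := by nlinarith [mul_pos hb hη]
    have h7 : η * t j = t j * (η / 4) + (t j * (η / 4) + t j * (η / 2)) := by ring
    rw [h7]
    exact add_le_add h2 (add_le_add h6 h1)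
  · -- tb
    intro R η hR hη
    filter_upwards [hS, hNb, hB0, hpt R hR, hsmall (η / (2 * R)) (by positivity), hcw (η / 2) (by positivity)] with j h hn hb hp hs hc z hz
    obtain ⟨v, rfl, hv1, hv2⟩ := hp z hz
    rw [hn]
    have hrp : 0 < ‖r j‖ := norm_pos_iff.2 (hr0 j)
    refine ⟨h.gb v (mem_ball_zero_iff.2 (by linarith)), ?_⟩
    rw [hTr]
    have hl := h.lb v (mem_ball_zero_iff.2 (by linarith))
    rw [hBj] at hl
    have ht0 : (t j : ℂ) ≠ 0 := by exact_mod_cast (htp j).ne'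
    have e1 : r j * T (PVs (y j) (r j) Y₀) (b j) v - (t j : ℂ) * w = r j * (T (PVs (y j) (r j) Y₀) (b j) v - B j) +
        (t j : ℂ) * (r j * B j / (t j : ℂ) - w) := by
      field_simp
      ring
    rw [e1]
    refine (norm_add_le _ _).trans ?_
    rw [norm_mul, norm_mul, Complex.norm_real, Real.norm_of_nonneg (htp j).le]
    have h1 : t j * ‖r j * B j / (t j : ℂ) - w‖ ≤ t j * (η / 2) := mul_le_mul_of_nonneg_left hc.le (htp j).le
    have h2 : ‖r j‖ * ‖T (PVs (y j) (r j) Y₀) (b j) v - B j‖ ≤ t j * (η / 2) := by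
      rw [hte j hb]
      have h3 : ‖T (PVs (y j) (r j) Y₀) (b j) v - B j‖ ≤ 1 / 1000 * ‖T (PVs (y j) (r j) Y₀) (b j) 0‖ * (R * ‖B j‖) :=
        hl.trans (mul_le_mul_of_nonneg_left hv1.le (by positivity))
      have h5 : ‖B j‖ * ‖r j‖ * (η / 2) = ‖r j‖ * (‖B j‖ * (η / 2)) := by ring
      rw [h5]
      refine mul_le_mul_of_nonneg_left (h3.trans ?_) hrp.le
      have h6 : R * ‖B j‖ ≤ η / 2 := by
        rw [lt_div_iff₀ (by positivity)] at hs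
        linarith
      have h7 := h.bl
      rw [hBj] at h7
      refine mul_le_mul ?_ h6 (by positivity) hb.le
      have := h.bp
      linarith
    have h7 : η * t j = t j * (η / 2) + t j * (η / 2) := by ring
    rw [h7]
    exact add_le_add h2 h1
  · -- bg
    intro C
    filter_upwards [hS, hNa, hNb, hKT, hIDX Y₀ U y r e s a m ζ k b hT (2 * C)] with j h hn1 hn2 hk hid
    rw [hn1, hn2]
    have h1 := hid (C * K j) (by
      push_cast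
      have := hk.2
      have hC : (0 : ℝ) ≤ C := Nat.cast_nonneg _
      nlinarith)
    calc C * (K j * a j) = C * K j * a j := by ring
      _ < b j := h1
  · -- nr
    intro A'
    filter_upwards [hS, hNa, hNb, hA0, hB0, hKA, hKT, hCPL Y₀ U y r e s a m ζ k b hT A' 2] with j h hn1 hn2 ha hb hk hkt hc i hi1 hi2 hi3
    rw [hn1, hn2] at hi2
    rw [hn1]
    have hrp : 0 < ‖r j‖ := norm_pos_iff.2 (hr0 j)
    have hx : y j + r j * ζ j ∈ ball (y j + r j * ζ j) (1 * t j) := mem_ball_self (by rw [one_mul]; exact htp j)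
    obtain ⟨-, h1⟩ := hi3 _ hx
    rw [mul_zero, sub_zero, hTr, norm_mul, hte j hb] at h1
    have h2 : ‖T (PVs (y j) (r j) Y₀) i (ζ j)‖ ≤ (1 / 40) * ‖T (PVs (y j) (r j) Y₀) (b j) (ζ j)‖ := by
      rw [hBj]
      have h3 : ‖r j‖ * ‖T (PVs (y j) (r j) Y₀) i (ζ j)‖ ≤ ‖r j‖ * (1 / 40 * ‖B j‖) := by linarith
      exact le_of_mul_le_mul_left h3 hrp
    obtain ⟨l', hl1, hl2⟩ := hc (K j) i (by exact_mod_cast hkt.2) hi1 hi2 h2
    refine ⟨l', hl1, ?_⟩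
    have h3 := h.al
    have h4 := h.au
    have h5 := h.bl
    rw [hAj] at h3 h4
    rw [hBj] at h5
    have hap := h.ap
    have h6 : (l' : ℝ) * ‖T (PVs (y j) (r j) Y₀) (a j) 0‖ ≤ (1 / 10 * K j) * ‖T (PVs (y j) (r j) Y₀) (a j) 0‖ := by
      have h7 : ‖B j‖ ≤ 101 / 100 * (K j * (1001 / 1000 * ‖T (PVs (y j) (r j) Y₀) (a j) 0‖)) := by
        refine hk.2.trans ?_
        have : (K j : ℝ) * ‖A j‖ ≤ K j * (1001 / 1000 * ‖T (PVs (y j) (r j) Y₀) (a j) 0‖) := mul_le_mul_of_nonneg_left h4 (Nat.cast_nonneg _)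
        linarith
      have h8 : (0 : ℝ) ≤ K j * ‖T (PVs (y j) (r j) Y₀) (a j) 0‖ := by positivity
      nlinarith
    exact le_of_mul_le_mul_right h6 hap
  · refine hBlim.congr' ?_
    filter_upwards [hB0] with j hb
    rw [hte j hb]
    have hrp : 0 < ‖r j‖ := norm_pos_iff.2 (hr0 j)
    field_simp

end FL
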